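import Mathlib

set_option autoImplicit false

namespace Pool.Agent.Results.MP_4681e4_al.AscendingChain

open Monoid

section Definitions

variable {G : Type} [Group G]

/-- A subgroup is slender if all of its subgroups are finitely generated. -/
def Slender (C : Subgroup G) : Prop := ∀ K : Subgroup G, K ≤ C → K.FG

/-- The two factors `A`, `B` as a family indexed by `Bool`. -/
def factors (A B : Subgroup G) : Bool → Subgroup G := fun b => cond b A B

/-- The homomorphism from the amalgamated free product of `A` and `B` over `C` (Mathlib's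
`Monoid.PushoutI` of the two inclusions of `C`) to `G` which is induced by the inclusions. -/
def amalgHom (A B C : Subgroup G) (h : ∀ b, C ≤ factors A B b) :
    PushoutI (fun b => Subgroup.inclusion (h b)) →* G :=
  PushoutI.lift (fun b => (factors A B b).subtype) C.subtype (by intro b; ext x; rfl)

/-- `G = A *_C B`: `C` is contained in `A` and in `B`, and the homomorphism from the amalgamated
free product of `A` and `B` over `C` to `G` induced by the inclusions is an isomorphism.
The splitting is nontrivial: `C ≠ A` and `C ≠ B`. -/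
def IsAmalgam (A B C : Subgroup G) : Prop :=
  C ≠ A ∧ C ≠ B ∧ ∃ h : ∀ b, C ≤ factors A B b, Function.Bijective (amalgHom A B C h)

end Definitions

section General

variable {G : Type} [Group G]

theorem amalgHom_of (A B C : Subgroup G) (h : ∀ b, C ≤ factors A B b) (b : Bool)
    (x : factors A B b) :
    amalgHom A B C h (PushoutI.of (φ := fun b => Subgroup.inclusion (h b)) b x) = (x : G) :=
  PushoutI.lift_of (φ := fun b => Subgroup.inclusion (h b))
    (fun b => (factors A B b).subtype) C.subtype (by intro b; ext x; rfl) x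

/-- Universal property of an amalgam. -/
theorem IsAmalgam.exists_hom {A B C : Subgroup G} (h : IsAmalgam A B C) {X : Type} [Group X]
    (f : A →* X) (g : B →* X)
    (hfg : ∀ (c : G) (hA : c ∈ A) (hB : c ∈ B), c ∈ C → f ⟨c, hA⟩ = g ⟨c, hB⟩) :
    ∃ F : G →* X, (∀ a : A, F a = f a) ∧ (∀ b : B, F b = g b) := by
  obtain ⟨_, _, hle, hbij⟩ := h
  let e := MulEquiv.ofBijective (amalgHom A B C hle) hbij
  let fam : ∀ b, factors A B b →* X := fun b => match b with
    | true => f
    | false => g
  let k : C →* X := f.comp (Subgroup.inclusion (hle true))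
  have hk : ∀ b, (fam b).comp (Subgroup.inclusion (hle b)) = k := by
    intro b
    cases b
    · ext c
      exact (hfg c.1 (hle true c.2) (hle false c.2) c.2).symm
    · rfl
  let Q := PushoutI.lift (φ := fun b => Subgroup.inclusion (hle b)) fam k hk
  have he : ∀ (b : Bool) (x : factors A B b),
      e.symm (x : G) = PushoutI.of (φ := fun b => Subgroup.inclusion (hle b)) b x := by
    intro b x
    rw [MulEquiv.symm_apply_eq]
    exact (amalgHom_of A B C hle b x).symm
  refine ⟨Q.comp e.symm.toMonoidHom, ?_, ?_⟩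
  · intro a
    have h1 := he true a
    have h2 := PushoutI.lift_of (φ := fun b => Subgroup.inclusion (hle b)) fam k hk
      (i := true) a
    change Q (e.symm (a : G)) = f a
    exact (congrArg Q h1).trans h2
  · intro b
    have h1 := he false b
    have h2 := PushoutI.lift_of (φ := fun b => Subgroup.inclusion (hle b)) fam k hk
      (i := false) b
    change Q (e.symm (b : G)) = g b
    exact (congrArg Q h1).trans h2

/-- A criterion for being an amalgam. -/
theorem isAmalgam_of {A B C : Subgroup G} (hCA : C ≤ A) (hCB : C ≤ B) (hA : C ≠ A) (hB : C ≠ B)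
    (hgen : A ⊔ B = ⊤)
    (huniv : ∀ (X : Type) [Group X] (f : A →* X) (g : B →* X),
      (∀ (c : G) (hA : c ∈ A) (hB : c ∈ B), c ∈ C → f ⟨c, hA⟩ = g ⟨c, hB⟩) →
      ∃ F : G →* X, (∀ a : A, F a = f a) ∧ (∀ b : B, F b = g b)) : IsAmalgam A B C := by
  have hle : ∀ b, C ≤ factors A B b := fun b => by cases b <;> assumption
  refine ⟨hA, hB, hle, ?_⟩
  constructor
  · obtain ⟨F, hF1, hF2⟩ := huniv (PushoutI (fun b => Subgroup.inclusion (hle b)))
      (PushoutI.of (φ := fun b => Subgroup.inclusion (hle b)) true)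
      (PushoutI.of (φ := fun b => Subgroup.inclusion (hle b)) false) (by
        intro c hA hB hC
        have e1 := PushoutI.of_apply_eq_base (fun b => Subgroup.inclusion (hle b)) true ⟨c, hC⟩
        have e2 := PushoutI.of_apply_eq_base (fun b => Subgroup.inclusion (hle b)) false ⟨c, hC⟩
        exact e1.trans e2.symm)
    have hid : F.comp (amalgHom A B C hle) = MonoidHom.id _ := by
      apply PushoutI.hom_ext_nonempty
      intro b
      ext x
      have h3 := congrArg F (amalgHom_of A B C hle b x)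
      cases b
      · exact h3.trans (hF2 x)
      · exact h3.trans (hF1 x)
    intro x y hxy
    have h4 := congrArg F hxy
    have hx := DFunLike.congr_fun hid x
    have hy := DFunLike.congr_fun hid y
    exact (hx.symm.trans h4).trans hy
  · rw [← MonoidHom.range_eq_top, ← top_le_iff, ← hgen, sup_le_iff]
    exact ⟨fun a ha => ⟨_, amalgHom_of A B C hle true ⟨a, ha⟩⟩,
      fun a ha => ⟨_, amalgHom_of A B C hle false ⟨a, ha⟩⟩⟩

end General

section Slender

theorem fg_map {G H : Type} [Group G] [Group H] (f : G →* H) {K : Subgroup G} (h : K.FG) :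
    (K.map f).FG := by
  rw [Subgroup.fg_iff] at h ⊢
  obtain ⟨S, hS, hfin⟩ := h
  refine ⟨f '' S, ?_, hfin.image f⟩
  rw [← hS, MonoidHom.map_closure]

/-- The image of a homomorphism from `ℤ × ℤ` is slender. -/
theorem slender_range {G : Type} [Group G] (f : Multiplicative (ℤ × ℤ) →* G) :
    Slender f.range := by
  intro K hK
  have h1 : K = (K.comap f).map f := by
    rw [Subgroup.map_comap_eq, inf_eq_right.mpr hK]
  rw [h1]
  have h2 : (K.comap f).FG := by
    rw [Subgroup.fg_iff_add_fg]
    have h3 : (AddSubgroup.toIntSubmodule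
        (M := ℤ × ℤ) (Subgroup.toAddSubgroup (K.comap f) : AddSubgroup (ℤ × ℤ))).FG :=
      IsNoetherian.noetherian _
    rw [Submodule.fg_iff_addSubgroup_fg] at h3
    exact h3
  exact fg_map f h2

end Slender

section Example

/-- Translation by `1` on `ℚ`. -/
def tau : Equiv.Perm ℚ := Equiv.addRight 1

/-- Multiplication by `2` on `ℚ`. -/
def delta : Equiv.Perm ℚ := Equiv.mulLeft₀ 2 (by norm_num)

/-- The affine group generated by `x ↦ x + 1` and `x ↦ 2 x`. -/
abbrev D : Subgroup (Equiv.Perm ℚ) := Subgroup.closure {tau, delta}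

def dtau : D := ⟨tau, Subgroup.subset_closure (by simp)⟩
def ddelta : D := ⟨delta, Subgroup.subset_closure (by simp)⟩

/-- Both factors of the amalgam are `K0 = ℤ × D`. -/
abbrev K0 : Type := Multiplicative ℤ × D

/-- `t 0 = 1`, `t (n + 1)` is the translation by `2 ^ (-n)`. -/
def t : ℕ → D
  | 0 => 1
  | n + 1 => ddelta⁻¹ ^ n * dtau * ddelta ^ n

theorem delta_pow (n : ℕ) (x : ℚ) : (delta ^ n) x = 2 ^ n * x := by
  induction n generalizing x with
  | zero => simp
  | succ n ih =>
    rw [pow_succ, Equiv.Perm.mul_apply, ih]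
    simp [delta, pow_succ]; ring

theorem delta_inv_pow (n : ℕ) (x : ℚ) : (delta⁻¹ ^ n) x = x / 2 ^ n := by
  rw [inv_pow, Equiv.Perm.inv_eq_iff_eq, delta_pow]
  field_simp

theorem t_apply (n : ℕ) (x : ℚ) : (t (n + 1) : Equiv.Perm ℚ) x = x + 1 / 2 ^ n := by
  have : (t (n + 1) : Equiv.Perm ℚ) = delta⁻¹ ^ n * tau * delta ^ n := rfl
  rw [this, Equiv.Perm.mul_apply, Equiv.Perm.mul_apply, delta_pow, delta_inv_pow]
  simp only [tau, Equiv.coe_addRight]
  field_simp

theorem t_eq (n : ℕ) : (t (n + 1) : Equiv.Perm ℚ) = Equiv.addRight (1 / 2 ^ n : ℚ) := by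
  ext x
  rw [t_apply]
  simp

/-- Translations as a homomorphism. -/
def trHom : Multiplicative ℚ →* Equiv.Perm ℚ where
  toFun q := Equiv.addRight q.toAdd
  map_one' := by ext x; simp
  map_mul' a b := by ext x; simp [add_comm, add_left_comm]

theorem t_zpow (n : ℕ) (j : ℤ) :
    ((t (n + 1) ^ j : D) : Equiv.Perm ℚ) = Equiv.addRight (j / 2 ^ n : ℚ) := by
  have h := map_zpow trHom (Multiplicative.ofAdd (1 / 2 ^ n : ℚ)) j
  rw [SubgroupClass.coe_zpow, t_eq]
  have h1 : trHom (Multiplicative.ofAdd (1 / 2 ^ n : ℚ)) = Equiv.addRight (1 / 2 ^ n : ℚ) := rfl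
  rw [h1] at h
  rw [← h]
  ext x
  simp [trHom, div_eq_mul_inv]

theorem t_mem (n : ℕ) : t n ∈ Subgroup.zpowers (t (n + 1)) := by
  cases n with
  | zero => exact Subgroup.one_mem _
  | succ n =>
    refine ⟨2, ?_⟩
    apply Subtype.ext
    change ((t (n + 2) ^ (2 : ℤ) : D) : Equiv.Perm ℚ) = _
    rw [t_zpow, t_eq]
    congr 1
    rw [pow_succ]
    push_cast
    field_simp

theorem t_not_mem (n : ℕ) : t (n + 1) ∉ Subgroup.zpowers (t n) := by
  rintro ⟨j, hj⟩
  cases n with
  | zero =>
    have h1 := congrArg (fun p : D => (p : Equiv.Perm ℚ) 0) hj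
    have h2 : ((t 1 : D) : Equiv.Perm ℚ) 0 = 1 := by rw [t_apply]; simp
    have h3 : (((t 0) ^ j : D) : Equiv.Perm ℚ) 0 = 0 := by
      rw [show (t 0) = 1 from rfl, one_zpow]; rfl
    simp only at h1
    rw [h2, h3] at h1
    norm_num at h1
  | succ n =>
    have h1 := congrArg (fun p : D => (p : Equiv.Perm ℚ) 0) hj
    have h2 : ((t (n + 2) : D) : Equiv.Perm ℚ) 0 = 1 / 2 ^ (n + 1) := by rw [t_apply]; simp
    have h3 : (((t (n + 1)) ^ j : D) : Equiv.Perm ℚ) 0 = j / 2 ^ n := by
      rw [t_zpow]; simp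
    simp only at h1
    rw [h2, h3, pow_succ] at h1
    have h4 : (2 : ℚ) ^ n ≠ 0 := by positivity
    field_simp at h1
    have h5 : (j * 2 : ℤ) = 1 := by exact_mod_cast h1
    omega

/-- The two embeddings of `ℤ`: `1 ↦ (1, 1)` and `1 ↦ (0, τ)`. -/
def phi : Bool → Multiplicative ℤ →* K0
  | true => MonoidHom.inl (Multiplicative ℤ) D
  | false => (MonoidHom.inr (Multiplicative ℤ) D).comp (zpowersHom D dtau)

/-- The group of the example: `(ℤ × D) *_ℤ (ℤ × D)`. -/
abbrev Gex : Type := PushoutI phi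

theorem t_one : t 1 = dtau := by
  simp [t]

theorem phi_injective : ∀ b, Function.Injective (phi b) := by
  intro b
  cases b
  · rw [injective_iff_map_eq_one]
    intro z hz
    have h1 : (dtau : D) ^ (z.toAdd) = 1 := by
      have := congrArg Prod.snd hz
      simpa [phi, zpowersHom] using this
    rw [← t_one] at h1
    have h2 : ((t (0 + 1) ^ (z.toAdd) : D) : Equiv.Perm ℚ) 0 = ((1 : D) : Equiv.Perm ℚ) 0 := by
      rw [h1]
    rw [t_zpow] at h2
    simpa using h2
  · intro x y h
    exact congrArg Prod.fst h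

theorem of_inj (b : Bool) : Function.Injective (PushoutI.of (φ := phi) b) :=
  PushoutI.of_injective phi_injective b

/-- The first factor. -/
def A : Subgroup Gex := (PushoutI.of (φ := phi) true).range

/-- The second factor. -/
def B0 : Subgroup Gex := (PushoutI.of (φ := phi) false).range

/-- The homomorphism with image `C n`. -/
def cHom (n : ℕ) : Multiplicative (ℤ × ℤ) →* K0 where
  toFun p := (Multiplicative.ofAdd p.toAdd.1, t n ^ p.toAdd.2)
  map_one' := by simp
  map_mul' p q := by
    simp [zpow_add]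

/-- The chain of edge groups. -/
def C (n : ℕ) : Subgroup Gex := ((PushoutI.of (φ := phi) true).comp (cHom n)).range

/-- The vertex groups on the other side. -/
def B (n : ℕ) : Subgroup Gex := C n ⊔ B0

theorem mem_C {n : ℕ} {x : K0} :
    PushoutI.of (φ := phi) true x ∈ C n ↔ x.2 ∈ Subgroup.zpowers (t n) := by
  constructor
  · rintro ⟨p, hp⟩
    have h1 : cHom n p = x := of_inj true hp
    rw [← h1]
    exact ⟨p.toAdd.2, rfl⟩
  · rintro ⟨j, hj⟩
    refine ⟨Multiplicative.ofAdd (x.1.toAdd, j), ?_⟩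
    rw [MonoidHom.comp_apply]
    congr 1
    exact Prod.ext rfl hj

theorem C_le_A (n : ℕ) : C n ≤ A := by
  rintro _ ⟨p, rfl⟩
  exact ⟨_, rfl⟩

theorem slender_C (n : ℕ) : Slender (C n) := slender_range _

theorem C_lt (n : ℕ) : C n < C (n + 1) := by
  rw [SetLike.lt_iff_le_and_exists]
  constructor
  · intro g hg
    obtain ⟨x, rfl⟩ := C_le_A n hg
    rw [mem_C] at hg ⊢
    exact (Subgroup.zpowers_le.mpr (t_mem n)) hg
  · refine ⟨PushoutI.of (φ := phi) true (1, t (n + 1)), ?_, ?_⟩
    · rw [mem_C]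
      exact Subgroup.mem_zpowers _
    · rw [mem_C]
      exact t_not_mem n

theorem base_mem_C (n : ℕ) (z : Multiplicative ℤ) : PushoutI.base phi z ∈ C n := by
  rw [← PushoutI.of_apply_eq_base phi true z, mem_C]
  exact Subgroup.one_mem _

theorem ddelta_not_mem (n : ℕ) : ddelta ∉ Subgroup.zpowers (t n) := by
  rintro ⟨j, hj⟩
  cases n with
  | zero =>
    have h2 : ((ddelta : D) : Equiv.Perm ℚ) 1 = (((t 0) ^ j : D) : Equiv.Perm ℚ) 1 := by
      rw [← hj]
    rw [show (t 0) = 1 from rfl, one_zpow] at h2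
    simp [ddelta, delta] at h2
  | succ n =>
    have h2 : ∀ x : ℚ, ((ddelta : D) : Equiv.Perm ℚ) x = (((t (n + 1)) ^ j : D) : Equiv.Perm ℚ) x := by
      intro x
      rw [← hj]
    have h3 := h2 0
    have h4 := h2 1
    rw [t_zpow] at h3 h4
    have h5 : ((ddelta : D) : Equiv.Perm ℚ) 0 = 2 * 0 := rfl
    have h6 : ((ddelta : D) : Equiv.Perm ℚ) 1 = 2 * 1 := rfl
    rw [h5] at h3
    rw [h6] at h4
    rw [Equiv.coe_addRight] at h3 h4
    linarith

theorem C_ne_A (n : ℕ) : C n ≠ A := by
  intro h
  have h1 : PushoutI.of (φ := phi) true ((1, ddelta) : K0) ∈ C n := by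
    rw [h]
    exact ⟨_, rfl⟩
  rw [mem_C] at h1
  exact ddelta_not_mem n h1

theorem C_ne_B (n : ℕ) : C n ≠ B n := by
  intro h
  have h1 : PushoutI.of (φ := phi) false ((1, ddelta) : K0) ∈ C n := by
    rw [h]
    exact Subgroup.mem_sup_right ⟨_, rfl⟩
  have h2 : PushoutI.of (φ := phi) false ((1, ddelta) : K0) ∈
      (PushoutI.of (φ := phi) true).range ⊓ (PushoutI.of (φ := phi) false).range :=
    ⟨C_le_A n h1, ⟨_, rfl⟩⟩
  rw [PushoutI.inf_of_range_eq_base_range phi_injective (by decide)] at h2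
  obtain ⟨z, hz⟩ := h2
  rw [← PushoutI.of_apply_eq_base phi false z] at hz
  have h3 := congrArg Prod.snd (of_inj false hz)
  apply ddelta_not_mem 1
  rw [t_one]
  exact ⟨z.toAdd, h3⟩

theorem A_sup_B0 : A ⊔ B0 = ⊤ := by
  rw [← top_le_iff]
  intro x _
  induction x using PushoutI.induction_on with
  | of i g =>
    cases i
    · exact Subgroup.mem_sup_right ⟨g, rfl⟩
    · exact Subgroup.mem_sup_left ⟨g, rfl⟩
  | base h =>
    rw [← PushoutI.of_apply_eq_base phi true h]
    exact Subgroup.mem_sup_left ⟨_, rfl⟩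
  | mul x y hx hy => exact Subgroup.mul_mem _ (hx trivial) (hy trivial)

theorem isAmalgam (n : ℕ) : IsAmalgam A (B n) (C n) := by
  refine isAmalgam_of (C_le_A n) le_sup_left (C_ne_A n) (C_ne_B n) ?_ ?_
  · rw [← top_le_iff, ← A_sup_B0]
    exact sup_le le_sup_left (le_sup_of_le_right le_sup_right)
  · intro X _ f g hfg
    let f' : K0 →* X := f.comp ((PushoutI.of (φ := phi) true).rangeRestrict)
    let g' : K0 →* X := g.comp ((Subgroup.inclusion (le_sup_right : B0 ≤ B n)).comp
      ((PushoutI.of (φ := phi) false).rangeRestrict))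
    let fam : Bool → (K0 →* X) := fun b => cond b f' g'
    have hcomp : ∀ b, (fam b).comp (phi b) = f'.comp (phi true) := by
      intro b
      cases b
      · ext
        have h1 := PushoutI.of_apply_eq_base phi true (Multiplicative.ofAdd (1 : ℤ))
        have h2 := PushoutI.of_apply_eq_base phi false (Multiplicative.ofAdd (1 : ℤ))
        have h3 := base_mem_C n (Multiplicative.ofAdd (1 : ℤ))
        have h4 := hfg _ (C_le_A n h3) ((le_sup_left : C n ≤ B n) h3) h3
        have e1 : f' (phi true (Multiplicative.ofAdd (1 : ℤ))) =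
            f ⟨_, C_le_A n h3⟩ := congrArg f (Subtype.ext h1)
        have e2 : g' (phi false (Multiplicative.ofAdd (1 : ℤ))) =
            g ⟨_, (le_sup_left : C n ≤ B n) h3⟩ := congrArg g (Subtype.ext h2)
        exact (e2.trans h4.symm).trans e1.symm
      · rfl
    let F : Gex →* X := PushoutI.lift fam (f'.comp (phi true)) hcomp
    have hF : ∀ b x, F (PushoutI.of b x) = fam b x := fun b x =>
      PushoutI.lift_of fam (f'.comp (phi true)) hcomp x
    have hFA : ∀ a : A, F a = f a := by
      rintro ⟨_, x, rfl⟩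
      exact hF true x
    refine ⟨F, hFA, ?_⟩
    have hle : B n ≤ ((F.comp (B n).subtype).eqLocus g).map (B n).subtype := by
      refine sup_le ?_ ?_
      · intro c hc
        refine ⟨⟨c, (le_sup_left : C n ≤ B n) hc⟩, ?_, rfl⟩
        exact (hFA ⟨c, C_le_A n hc⟩).trans (hfg c _ _ hc)
      · rintro _ ⟨x, rfl⟩
        refine ⟨⟨_, (le_sup_right : B0 ≤ B n) ⟨x, rfl⟩⟩, ?_, rfl⟩
        exact hF false x
    intro b
    obtain ⟨b', hb', hbb⟩ := hle b.2
    have : b' = b := Subtype.ext hbb
    rw [← this]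
    exact hb'

theorem fg_Gex : Group.FG Gex := by
  have hD : Group.FG D := (Group.fg_iff_subgroup_fg _).mpr
    ((Subgroup.fg_iff _).mpr ⟨{tau, delta}, rfl, by simp⟩)
  have hK : Group.FG K0 := inferInstance
  obtain ⟨S, hS, hfin⟩ := Group.fg_iff.mp hK
  refine Group.fg_iff.mpr ⟨PushoutI.of (φ := phi) true '' S ∪ PushoutI.of (φ := phi) false '' S,
    ?_, (hfin.image _).union (hfin.image _)⟩
  rw [Subgroup.closure_union, ← MonoidHom.map_closure, ← MonoidHom.map_closure, hS,
    ← MonoidHom.range_eq_map, ← MonoidHom.range_eq_map]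
  exact A_sup_B0

theorem infinite_C (n : ℕ) : Infinite (C n) := by
  have hinj : Function.Injective (fun z : Multiplicative ℤ =>
      (⟨PushoutI.base phi z, base_mem_C n z⟩ : C n)) := by
    intro x y h
    exact PushoutI.base_injective phi_injective (congrArg Subtype.val h)
  exact Infinite.of_injective _ hinj

theorem comm_tau : dtau = ddelta * dtau * ddelta⁻¹ * dtau⁻¹ := by
  apply Subtype.ext
  ext x
  change tau x = (delta * tau * delta⁻¹ * tau⁻¹) x
  simp only [Equiv.Perm.mul_apply]
  have h1 : tau⁻¹ x = x - 1 := by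
    rw [Equiv.Perm.inv_eq_iff_eq]; simp [tau]
  have h2 := delta_inv_pow 1 (x - 1)
  rw [pow_one, pow_one] at h2
  rw [h1, h2]
  simp [tau, delta]
  ring

/-- No splitting of `Gex` with vertex group `A` has its edge group properly inside `C 0`. -/
theorem no_smaller (B' C' : Subgroup Gex) (h : IsAmalgam A B' C') (hlt : C' < C 0) : False := by
  set z1 : Multiplicative ℤ := Multiplicative.ofAdd (1 : ℤ) with hz1
  let J : Subgroup (Multiplicative ℤ) := C'.comap (PushoutI.base phi)
  let X := Multiplicative ℤ ⧸ J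
  let e : K0 ≃* A := MonoidHom.ofInjective (of_inj true)
  let f : A →* X := ((QuotientGroup.mk' J).comp (MonoidHom.fst (Multiplicative ℤ) D)).comp
    e.symm.toMonoidHom
  have hf : ∀ x : K0, f ⟨PushoutI.of (φ := phi) true x, ⟨x, rfl⟩⟩ = QuotientGroup.mk' J x.1 := by
    intro x
    have : e.symm ⟨PushoutI.of (φ := phi) true x, ⟨x, rfl⟩⟩ = x := by
      rw [MulEquiv.symm_apply_eq]
      rfl
    change QuotientGroup.mk' J (e.symm ⟨PushoutI.of (φ := phi) true x, ⟨x, rfl⟩⟩).1 = _
    rw [this]
  have hC0 : ∀ c ∈ C 0, ∃ z, c = PushoutI.base phi z := by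
    rintro c ⟨p, rfl⟩
    refine ⟨Multiplicative.ofAdd p.toAdd.1, ?_⟩
    rw [← PushoutI.of_apply_eq_base phi true, MonoidHom.comp_apply]
    congr 1
    exact Prod.ext rfl (one_zpow _)
  obtain ⟨F, hF1, hF2⟩ := h.exists_hom f (1 : B' →* X) (by
    intro c hA hB hc
    obtain ⟨z, rfl⟩ := hC0 c (hlt.le hc)
    have h1 : (⟨PushoutI.base phi z, hA⟩ : A) =
        ⟨PushoutI.of (φ := phi) true (phi true z), ⟨_, rfl⟩⟩ :=
      Subtype.ext (PushoutI.of_apply_eq_base phi true z).symm
    rw [h1, hf]
    simp only [MonoidHom.one_apply]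
    exact (QuotientGroup.eq_one_iff z).mpr hc)
  have h1 : F (PushoutI.base phi z1) = QuotientGroup.mk' J z1 := by
    have h2 := hF1 ⟨PushoutI.of (φ := phi) true (phi true z1), ⟨_, rfl⟩⟩
    rw [hf] at h2
    rw [← PushoutI.of_apply_eq_base phi true]
    exact h2
  have h3 : F (PushoutI.base phi z1) = 1 := by
    rw [← PushoutI.of_apply_eq_base phi false]
    have h4 : phi false z1 = ((1, ddelta) : K0) * (1, dtau) * (1, ddelta)⁻¹ * (1, dtau)⁻¹ := by
      apply Prod.ext
      · simp [phi]
      · change dtau ^ (1 : ℤ) = ddelta * dtau * ddelta⁻¹ * dtau⁻¹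
        rw [zpow_one]
        exact comm_tau
    rw [h4, map_mul, map_mul, map_mul, map_inv, map_inv, map_mul, map_mul, map_mul, map_inv,
      map_inv]
    generalize F (PushoutI.of (φ := phi) false ((1, ddelta) : K0)) = u
    generalize F (PushoutI.of (φ := phi) false ((1, dtau) : K0)) = v
    rw [mul_comm u v]
    group
  have h5 : z1 ∈ J := (QuotientGroup.eq_one_iff z1).mp (h1.symm.trans h3)
  apply hlt.not_ge
  intro c hc
  obtain ⟨z, rfl⟩ := hC0 c hc
  have h6 : z = z1 ^ z.toAdd := by
    rw [hz1, ← ofAdd_zsmul]; simp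
  rw [h6, map_zpow]
  exact Subgroup.zpow_mem C' h5 _

end Example

/-- Negative answer to Q1: there are a finitely generated group `G`, a subgroup `A` and subgroups
`B n`, `C n` such that `G = A *_(C n) (B n)` (nontrivial), `C n` is slender and infinite and
`C n < C (n + 1)` for all `n`, but no splitting `G = A *_C' B'` has `C' < C n` for all `n`. -/
theorem result :
    ∃ (G : Type) (_ : Group G) (A : Subgroup G) (B C : ℕ → Subgroup G),
      Group.FG G ∧
      (∀ n, IsAmalgam A (B n) (C n)) ∧
      (∀ n, Slender (C n)) ∧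
      (∀ n, Infinite (C n)) ∧
      (∀ n, C n < C (n + 1)) ∧
      ¬ ∃ B' C' : Subgroup G, IsAmalgam A B' C' ∧ ∀ n, C' < C n :=
  ⟨Gex, inferInstance, A, B, C, fg_Gex, isAmalgam, slender_C, infinite_C, C_lt,
    fun ⟨B', C', h, hlt⟩ => no_smaller B' C' h (hlt 0)⟩

end Pool.Agent.Results.MP_4681e4_al.AscendingChain
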